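import Mathlib

set_option autoImplicit false

/-! Finite presentations, Dehn presentations, hyperbolic groups, Turing machines reading and
writing presentations. -/

namespace Pool.Agent.H668R2.Dehn

/-- Words over the alphabet of the generators `x_0, …, x_{n-1}` and their inverses; the letter
`(i, true)` is `x_i`, the letter `(i, false)` is its inverse. -/
abbrev Word (n : ℕ) : Type := List (Fin n × Bool)

/-- A finite set of relators over the generators `x_0, …, x_{n-1}`, given by a list. -/
abbrev Rels (n : ℕ) : Type := List (Word n)

/-- The elements of the free group given by the relators. -/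
def relSet {n : ℕ} (R : Rels n) : Set (FreeGroup (Fin n)) := {x | ∃ r ∈ R, x = FreeGroup.mk r}

/-- The group presented by `⟨x_0, …, x_{n-1} | R⟩`. -/
abbrev Grp {n : ℕ} (R : Rels n) : Type := PresentedGroup (relSet R)

/-- The element of the presented group represented by a word. -/
def value {n : ℕ} (R : Rels n) (w : Word n) : Grp R := PresentedGroup.mk (relSet R) (FreeGroup.mk w)

/-- The size of the presentation: the number of generators plus the sum of the lengths of the
relators. -/
def size {n : ℕ} (R : Rels n) : ℕ := n + (R.map List.length).sum

/-- The set `R^*` of all cyclic permutations of the elements of `R` and of their inverses, freely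
reduced. -/
def symmetrized {n : ℕ} (R : Rels n) : Set (Word n) :=
  {w | ∃ r ∈ R, ∃ s : Word n, (s ~r r ∨ s ~r FreeGroup.invRev r) ∧ w = FreeGroup.reduce s}

/-- Dehn presentations: every nonempty freely reduced word that represents the identity contains a
subword `u` such that some `r` in `R^*` can be written `r = u v` with `|v| < |u|`. -/
def IsDehn {n : ℕ} (R : Rels n) : Prop :=
  ∀ w : Word n, w ≠ [] → FreeGroup.IsReduced w → value R w = 1 →
    ∃ u v : Word n, u <:+: w ∧ u ++ v ∈ symmetrized R ∧ v.length < u.length

/-- The Cayley graph of a group with respect to a set of elements. -/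
def cayleyGraph {G : Type} [Group G] (S : Set G) : SimpleGraph G :=
  SimpleGraph.fromRel fun g h => ∃ s ∈ S, h = g * s

/-- A walk is a geodesic if its length is the distance of its endpoints. -/
def IsGeodesic {V : Type} {Γ : SimpleGraph V} {x y : V} (p : Γ.Walk x y) : Prop :=
  p.length = Γ.dist x y

/-- Word-hyperbolic groups: for some finite generating set there is `δ` such that in the Cayley
graph each side of every geodesic triangle lies in the union of the `δ`-neighbourhoods of the
other two sides. -/
def IsHyperbolic (G : Type) [Group G] : Prop :=
  ∃ S : Set G, S.Finite ∧ Subgroup.closure S = ⊤ ∧ ∃ δ : ℕ,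
    ∀ (x y z : G) (p : (cayleyGraph S).Walk x y) (q : (cayleyGraph S).Walk y z)
      (r : (cayleyGraph S).Walk z x), IsGeodesic p → IsGeodesic q → IsGeodesic r →
      ∀ v ∈ p.support, ∃ w, (w ∈ q.support ∨ w ∈ r.support) ∧ (cayleyGraph S).dist v w ≤ δ

/-- The alphabet used to write presentations. -/
inductive Sym : Type
  | tick | pos | neg | sep

/-- The code of a letter: its sign, followed by its index in unary. -/
def letterCode {n : ℕ} (x : Fin n × Bool) : List Sym :=
  (if x.2 then Sym.pos else Sym.neg) :: List.replicate x.1 Sym.tick

/-- The code of a word. -/
def wordCode {n : ℕ} (w : Word n) : List Sym := w.flatMap letterCode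

/-- The code of a presentation: the number of generators in unary, then the codes of the relators,
each preceded by a separator. -/
def code {n : ℕ} (R : Rels n) : List Sym :=
  List.replicate n Sym.tick ++ R.flatMap fun r => Sym.sep :: wordCode r

/-- The deterministic Turing machine `M` (with several stacks) started on the code of the
presentation `R` stops after at most `t` steps with the code of the presentation `R'` as
output. -/
def Outputs (M : Turing.TM2ComputableAux Sym Sym) {n m : ℕ} (R : Rels n) (R' : Rels m)
    (t : ℕ) : Prop :=
  Nonempty (Turing.TM2OutputsInTime M.tm ((code R).map M.inputAlphabet.invFun)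
    (some ((code R').map M.outputAlphabet.invFun)) t)

/-- `R'` is a finite set of relators over the same generators as `R`, with the same normal
closure, and the presentation with the relators `R'` is a Dehn presentation. -/
def IsDehnPresentationFor {n : ℕ} (R R' : Rels n) : Prop :=
  Subgroup.normalClosure (relSet R') = Subgroup.normalClosure (relSet R) ∧ IsDehn R'

/-- The presentation with the relators `R'` (over any finite set of generators) is a Dehn
presentation of a group isomorphic to the group presented by `R`. -/
def IsDehnPresentationOf {n m : ℕ} (R : Rels n) (R' : Rels m) : Prop :=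
  Nonempty (Grp R' ≃* Grp R) ∧ IsDehn R'

end Pool.Agent.H668R2.Dehn
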