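import Mathlib
import Pool.Agent.H668R2.Dehn.Basic

set_option autoImplicit false

/-! An isoperimetric inequality for Dehn presentations. -/

namespace Pool.Agent.H668R2.Dehn

open FreeGroup

variable {n : ℕ} (R : Rels n)

/-- The value of a letter. -/
def lv (x : Fin n × Bool) : Grp R := value R [x]

theorem value_nil : value R [] = 1 := by
  unfold value
  rw [← FreeGroup.one_eq_mk, _root_.map_one]

theorem value_append (u v : Word n) : value R (u ++ v) = value R u * value R v := by
  unfold value
  rw [← FreeGroup.mul_mk, _root_.map_mul]

theorem value_cons (x : Fin n × Bool) (v : Word n) : value R (x :: v) = lv R x * value R v := by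
  rw [lv, ← value_append]
  rfl

theorem value_invRev (u : Word n) : value R (invRev u) = (value R u)⁻¹ := by
  unfold value
  rw [← FreeGroup.inv_mk, _root_.map_inv]

theorem value_reduce (u : Word n) : value R (reduce u) = value R u := by
  unfold value
  rw [FreeGroup.reduce.self]

theorem value_rel {r : Word n} (hr : r ∈ R) : value R r = 1 := by
  unfold value
  rw [PresentedGroup.mk_eq_one_iff]
  exact Subgroup.subset_normalClosure ⟨r, hr, rfl⟩

theorem lv_not (x : Fin n × Bool) : lv R (x.1, !x.2) = (lv R x)⁻¹ := by
  rw [lv, lv, ← value_invRev]
  rfl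

theorem value_rotate {u v : Word n} (h : u ~r v) (hv : value R v = 1) : value R u = 1 := by
  obtain ⟨k, rfl⟩ := h
  rw [List.rotate_eq_drop_append_take_mod, value_append] at hv
  have h1 := value_append R (u.take (k % u.length)) (u.drop (k % u.length))
  rw [List.take_append_drop] at h1
  rw [h1]
  exact mul_eq_one_iff_eq_inv.2 (eq_inv_of_mul_eq_one_right hv)

theorem length_le_size {r : Word n} (hr : r ∈ R) : r.length ≤ size R := by
  unfold size
  have : r.length ≤ (R.map List.length).sum :=
    List.single_le_sum (by simp) _ (List.mem_map.2 ⟨r, hr, rfl⟩)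
  omega

theorem value_symm {w : Word n} (hw : w ∈ symmetrized R) : value R w = 1 := by
  obtain ⟨r, hr, s, hs, rfl⟩ := hw
  rw [value_reduce]
  rcases hs with hs | hs
  · exact value_rotate R hs (value_rel R hr)
  · refine value_rotate R hs ?_
    rw [value_invRev, value_rel R hr, inv_one]

theorem length_symm {w : Word n} (hw : w ∈ symmetrized R) : w.length ≤ size R := by
  obtain ⟨r, hr, s, hs, rfl⟩ := hw
  have h1 : (reduce s).length ≤ s.length := by
    have := (FreeGroup.reduce.red (L := s)).length_le
    exact this
  have h2 : s.length = r.length := by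
    rcases hs with hs | hs
    · exact hs.perm.length_eq
    · rw [hs.perm.length_eq, FreeGroup.invRev_length]
  have := length_le_size R hr
  omega

/-- The integral of a `1`-form along a path that starts at `h` and is labelled by a word. -/
def I (a b : Grp R → ℤ) : Grp R → Word n → ℤ
  | _, [] => 0
  | h, x :: w => (a h + a (h * lv R x)) * (b (h * lv R x) - b h) + I a b (h * lv R x) w

theorem I_append (a b : Grp R → ℤ) (h : Grp R) (u v : Word n) :
    I R a b h (u ++ v) = I R a b h u + I R a b (h * value R u) v := by
  induction u generalizing h with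
  | nil => simp [I, value_nil]
  | cons x u ih => simp [I, ih, value_cons, mul_assoc, add_assoc]

theorem I_invRev (a b : Grp R → ℤ) (h : Grp R) (w : Word n) :
    I R a b h (invRev w) = - I R a b (h * (value R w)⁻¹) w := by
  induction w generalizing h with
  | nil => simp [I]
  | cons x w ih =>
    have h1 : invRev (x :: w) = invRev w ++ [(x.1, !x.2)] := by
      simp [invRev]
    rw [h1, I_append, ih, value_invRev]
    have h2 : value R (x :: w) = lv R x * value R w := value_cons R x w
    have h3 : h * (value R (x :: w))⁻¹ * lv R x = h * (value R w)⁻¹ := by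
      rw [h2]; group
    have h4 : h * (value R w)⁻¹ * (lv R x)⁻¹ = h * (value R (x :: w))⁻¹ := by
      rw [h2]; group
    simp only [I, lv_not, h3, h4]
    ring

/-- The functions `a` and `b` change by at most one along edges. -/
def Lip (a : Grp R → ℤ) : Prop := ∀ h x, |a (h * lv R x) - a h| ≤ 1

theorem Lip.le {a : Grp R → ℤ} (ha : Lip R a) (h : Grp R) (w : Word n) :
    |a (h * value R w) - a h| ≤ w.length := by
  induction w generalizing h with
  | nil => simp [value_nil]
  | cons x w ih =>
    have h1 := ih (h * lv R x)
    have h2 := ha h x
    rw [value_cons, ← mul_assoc]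
    rw [List.length_cons]
    push_cast
    rw [abs_le] at h1 h2 ⊢
    constructor <;> linarith

theorem I_bound {a b : Grp R → ℤ} (ha : Lip R a) (hb : Lip R b) (c : ℤ) (h : Grp R) (w : Word n)
    (K : ℤ) (hc : |a h - c| + w.length ≤ K) :
    |I R a b h w - 2 * c * (b (h * value R w) - b h)| ≤ 2 * K * w.length := by
  induction w generalizing h with
  | nil => simp [I, value_nil]
  | cons x w ih =>
    have h2 := ha h x
    have h3 := hb h x
    rw [List.length_cons] at hc
    push_cast at hc
    have h4 : |a (h * lv R x) - c| ≤ |a h - c| + 1 := by
      rw [abs_le] at h2 ⊢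
      have := abs_le.1 (le_refl |a h - c|)
      constructor <;> linarith
    have h1 := ih (h * lv R x) (by linarith)
    have h5 : |a (h * lv R x) - c| ≤ K := by
      have : (0 : ℤ) ≤ w.length := by positivity
      linarith
    have h6 : |a h - c| ≤ K := by
      have : (0 : ℤ) ≤ w.length := by positivity
      linarith
    have h7 : |(a h - c + (a (h * lv R x) - c)) * (b (h * lv R x) - b h)| ≤ 2 * K := by
      rw [abs_mul]
      have h8 : |a h - c + (a (h * lv R x) - c)| ≤ 2 * K := by
        refine (abs_add_le _ _).trans ?_
        linarith
      calc |a h - c + (a (h * lv R x) - c)| * |b (h * lv R x) - b h|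
          ≤ |a h - c + (a (h * lv R x) - c)| * 1 :=
            mul_le_mul_of_nonneg_left h3 (abs_nonneg _)
        _ ≤ 2 * K := by linarith
    rw [value_cons, ← mul_assoc]
    have h9 : I R a b h (x :: w) - 2 * c * (b (h * lv R x * value R w) - b h)
        = (a h - c + (a (h * lv R x) - c)) * (b (h * lv R x) - b h) +
          (I R a b (h * lv R x) w -
            2 * c * (b (h * lv R x * value R w) - b (h * lv R x))) := by
      simp only [I]
      ring
    rw [h9, List.length_cons]
    push_cast
    refine (abs_add_le _ _).trans ?_
    linarith

theorem I_loop {a b : Grp R → ℤ} (ha : Lip R a) (hb : Lip R b) (h : Grp R) (w : Word n)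
    (hw : value R w = 1) : |I R a b h w| ≤ 2 * (w.length : ℤ) ^ 2 := by
  have := I_bound R ha hb (a h) h w w.length (by simp)
  rw [hw, mul_one, sub_self, mul_zero, sub_zero] at this
  linarith [this, sq (w.length : ℤ), mul_assoc (2 : ℤ) w.length w.length]

/-- The isoperimetric inequality. -/
theorem isoperimetric (hR : IsDehn R) {a b : Grp R → ℤ} (ha : Lip R a) (hb : Lip R b)
    (h : Grp R) (w : Word n) (hw : value R w = 1) :
    |I R a b h w| ≤ 2 * (size R : ℤ) ^ 2 * w.length := by
  obtain ⟨N, hN⟩ : ∃ N, w.length = N := ⟨_, rfl⟩
  induction N using Nat.strong_induction_on generalizing w with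
  | _ N ih =>
    by_cases hw0 : w = []
    · subst hw0
      simp [I]
    by_cases hred : IsReduced w
    · obtain ⟨u, v, hu, huv, hlt⟩ := hR w hw0 hred hw
      obtain ⟨p, q, rfl⟩ := hu
      have h1 := value_symm R huv
      have h2 := length_symm R huv
      rw [value_append] at h1
      have h3 : value R u = (value R v)⁻¹ := mul_eq_one_iff_eq_inv.1 h1
      have h4 : (p ++ invRev v ++ q).length < N := by
        simp only [List.length_append, FreeGroup.invRev_length] at hN ⊢
        omega
      have h5 : value R (p ++ invRev v ++ q) = 1 := by
        rw [value_append, value_append] at hw ⊢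
        rw [value_invRev, ← h3]
        exact hw
      have h6 := ih _ h4 _ h5 rfl
      have h7 : I R a b h (p ++ u ++ q) = I R a b h (p ++ invRev v ++ q) +
          I R a b (h * value R p) (u ++ v) := by
        rw [I_append, I_append, I_append, I_append, I_append, I_invRev, value_append,
          value_append, value_invRev, ← h3, mul_assoc h]
        ring
      have h8 : |I R a b (h * value R p) (u ++ v)| ≤ 2 * (size R : ℤ) ^ 2 := by
        refine (I_loop R ha hb _ _ (value_symm R huv)).trans ?_
        have h9 : ((u ++ v).length : ℤ) ≤ size R := by exact_mod_cast h2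
        have : ((u ++ v).length : ℤ) ^ 2 ≤ (size R : ℤ) ^ 2 :=
          pow_le_pow_left₀ (by positivity) h9 2
        linarith
      rw [h7]
      refine (abs_add_le _ _).trans ?_
      have h10 : ((p ++ invRev v ++ q).length : ℤ) + 1 ≤ (p ++ u ++ q).length := by
        rw [hN]
        exact_mod_cast h4
      have h11 : 2 * (size R : ℤ) ^ 2 * ((p ++ invRev v ++ q).length + 1) ≤
          2 * (size R : ℤ) ^ 2 * (p ++ u ++ q).length :=
        mul_le_mul_of_nonneg_left h10 (by positivity)
      linarith
    · have : ∃ p q x, w = p ++ x :: (x.1, !x.2) :: q := by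
        rw [FreeGroup.isReduced_iff_not_step] at hred
        push Not at hred
        obtain ⟨w', hw'⟩ := hred
        cases hw' with
        | not => rename_i p q x b; exact ⟨p, q, (x, b), rfl⟩
      obtain ⟨p, q, x, rfl⟩ := this
      have h4 : (p ++ q).length < N := by
        simp only [List.length_append, List.length_cons] at hN ⊢
        omega
      have h5 : value R (p ++ q) = 1 := by
        rw [value_append, value_cons, value_cons, lv_not] at hw
        rw [value_append]
        simpa using hw
      have h6 := ih _ h4 _ h5 rfl
      have h7 : I R a b h (p ++ x :: (x.1, !x.2) :: q) = I R a b h (p ++ q) := by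
        rw [I_append, I_append]
        simp only [I, lv_not, mul_inv_cancel_right]
        ring
      rw [h7]
      refine h6.trans ?_
      have h10 : ((p ++ q).length : ℤ) ≤ (p ++ x :: (x.1, !x.2) :: q).length := by
        rw [hN]
        exact_mod_cast h4.le
      exact mul_le_mul_of_nonneg_left h10 (by positivity)

end Pool.Agent.H668R2.Dehn
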