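import Mathlib
import Pool.Agent.H668R2.Dehn.Iso

set_option autoImplicit false

/-! A finite group with a Dehn presentation of size `s` has diameter at most `168 s^2 + 3`. -/

namespace Pool.Agent.H668R2.Dehn

open FreeGroup

variable {n : ℕ} (R : Rels n)

theorem exists_word (g : Grp R) : ∃ w, value R w = g := by
  obtain ⟨x, rfl⟩ := PresentedGroup.mk_surjective (relSet R) g
  exact ⟨x.toWord, by rw [value, FreeGroup.mk_toWord]⟩

theorem exists_word_length (g : Grp R) : ∃ k, ∃ w, value R w = g ∧ w.length = k := by
  obtain ⟨w, hw⟩ := exists_word R g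
  exact ⟨_, w, hw, rfl⟩

open Classical in
/-- The word length. -/
noncomputable def nrm (g : Grp R) : ℕ := Nat.find (exists_word_length R g)

theorem exists_geodesic (g : Grp R) : ∃ w, value R w = g ∧ w.length = nrm R g := by
  classical
  exact Nat.find_spec (exists_word_length R g)

theorem nrm_le (w : Word n) : nrm R (value R w) ≤ w.length := by
  classical
  exact Nat.find_min' _ ⟨w, rfl, rfl⟩

theorem nrm_mul (g h : Grp R) : nrm R (g * h) ≤ nrm R g + nrm R h := by
  obtain ⟨u, rfl, hu⟩ := exists_geodesic R g
  obtain ⟨v, rfl, hv⟩ := exists_geodesic R h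
  rw [← value_append, ← hu, ← hv, ← List.length_append]
  exact nrm_le R _

theorem nrm_inv_le (g : Grp R) : nrm R g⁻¹ ≤ nrm R g := by
  obtain ⟨u, rfl, hu⟩ := exists_geodesic R g
  rw [← value_invRev, ← hu, ← FreeGroup.invRev_length (L₁ := u)]
  exact nrm_le R _

theorem nrm_inv (g : Grp R) : nrm R g⁻¹ = nrm R g :=
  le_antisymm (nrm_inv_le R g) (by simpa using nrm_inv_le R g⁻¹)

theorem nrm_one : nrm R 1 = 0 := by
  have := nrm_le R []
  rw [value_nil] at this
  simpa using this

theorem nrm_lv (x : Fin n × Bool) : nrm R (lv R x) ≤ 1 := nrm_le R [x]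

theorem nrm_prefix {p s : Word n} (h : nrm R (value R (p ++ s)) = (p ++ s).length) :
    nrm R (value R p) = p.length := by
  have h1 := nrm_le R p
  have h2 := nrm_le R s
  have h3 := nrm_mul R (value R p) (value R s)
  rw [← value_append, h, List.length_append] at h3
  omega

theorem lip_nrm (m : Grp R) : Lip R (fun g => (nrm R (m * g) : ℤ)) := by
  intro h x
  have h1 := nrm_mul R (m * h) (lv R x)
  have h2 := nrm_mul R (m * (h * lv R x)) (lv R x)⁻¹
  rw [nrm_inv] at h2
  have h3 := nrm_lv R x
  have h4 : m * (h * lv R x) * (lv R x)⁻¹ = m * h := by group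
  rw [h4] at h2
  rw [mul_assoc] at h1
  rw [abs_le]
  constructor
  · have : (nrm R (m * h) : ℤ) ≤ nrm R (m * (h * lv R x)) + 1 := by
      exact_mod_cast h2.trans (by omega)
    simp only
    linarith
  · have : (nrm R (m * (h * lv R x)) : ℤ) ≤ nrm R (m * h) + 1 := by
      exact_mod_cast h1.trans (by omega)
    simp only
    linarith

theorem lip_bump (m : Grp R) (r : ℤ) : Lip R (fun g => max 0 (r - nrm R (m * g))) := by
  intro h x
  have h1 := lip_nrm R m h x
  simp only at h1 ⊢
  rw [abs_le] at h1 ⊢
  constructor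
  · rcases le_total (r - nrm R (m * h)) 0 with h2 | h2
    · rw [max_eq_left h2]
      have := le_max_left (0 : ℤ) (r - nrm R (m * (h * lv R x)))
      linarith
    · rw [max_eq_right h2]
      have := le_max_right (0 : ℤ) (r - nrm R (m * (h * lv R x)))
      linarith
  · rcases le_total (r - nrm R (m * (h * lv R x))) 0 with h2 | h2
    · rw [max_eq_left h2]
      have := le_max_left (0 : ℤ) (r - nrm R (m * h))
      linarith
    · rw [max_eq_right h2]
      have := le_max_right (0 : ℤ) (r - nrm R (m * h))
      linarith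

theorem I_eq_zero {a b : Grp R → ℤ} (h : Grp R) (w : Word n)
    (ha : ∀ p s, p ++ s = w → a (h * value R p) = 0) : I R a b h w = 0 := by
  induction w generalizing h with
  | nil => rfl
  | cons x w ih =>
    have h1 := ha [] (x :: w) rfl
    have h2 := ha [x] w rfl
    rw [value_nil, mul_one] at h1
    have h3 : value R [x] = lv R x := rfl
    rw [h3] at h2
    simp only [I, h1, h2]
    rw [ih]
    · ring
    · intro p s hps
      have := ha (x :: p) s (by rw [← hps]; rfl)
      rw [value_cons, ← mul_assoc] at this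
      exact this

theorem I_lower {a b : Grp R → ℤ} (h0 : ∀ g, 0 ≤ a g) (h : Grp R) (w : Word n) (c : ℕ)
    (hc : c ≤ w.length)
    (ha : ∀ p s, p ++ s = w → (c : ℤ) - p.length ≤ a (h * value R p))
    (hb : ∀ p s, p ++ s = w → b (h * value R p) = b h + p.length) :
    (c : ℤ) ^ 2 ≤ I R a b h w := by
  induction w generalizing h c with
  | nil =>
    simp only [List.length_nil, nonpos_iff_eq_zero] at hc
    subst hc
    simp [I]
  | cons x w ih =>
    have h3 : value R [x] = lv R x := rfl
    have a1 := ha [] (x :: w) rfl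
    have a2 := ha [x] w rfl
    rw [value_nil, mul_one, List.length_nil] at a1
    rw [h3] at a2
    have b2 := hb [x] w rfl
    rw [h3] at b2
    simp only [List.length_singleton] at a2 b2
    push_cast at a1 a2 b2
    have hrec : ((c - 1 : ℕ) : ℤ) ^ 2 ≤ I R a b (h * lv R x) w := by
      apply ih
      · rw [List.length_cons] at hc
        omega
      · intro p s hps
        have := ha (x :: p) s (by rw [← hps]; rfl)
        rw [value_cons, ← mul_assoc, List.length_cons] at this
        push_cast at this
        by_cases hc0 : c = 0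
        · subst hc0
          have h5 := h0 (h * lv R x * value R p)
          have : (0 : ℤ) ≤ p.length := by positivity
          simp only [Nat.zero_sub, Nat.cast_zero]
          linarith
        · rw [Nat.cast_sub (by omega)]
          push_cast
          linarith
      · intro p s hps
        have := hb (x :: p) s (by rw [← hps]; rfl)
        rw [value_cons, ← mul_assoc, List.length_cons] at this
        rw [this, b2]
        push_cast
        ring
    simp only [I]
    rw [b2]
    by_cases hc0 : c = 0
    · subst hc0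
      have h5 := h0 h
      have h6 := h0 (h * lv R x)
      simp only [Nat.zero_sub, Nat.cast_zero] at hrec
      simp only [Nat.cast_zero]
      linarith
    · rw [Nat.cast_sub (by omega)] at hrec
      push_cast at hrec
      nlinarith

/-- The diameter of a finite group with a Dehn presentation. -/
theorem nrm_bound [Finite (Grp R)] (hR : IsDehn R) (g : Grp R) :
    nrm R g ≤ 168 * size R ^ 2 + 3 := by
  obtain ⟨o, ho⟩ := Finite.exists_max (nrm R)
  refine (ho g).trans ?_
  obtain ⟨D, hD⟩ : ∃ D, nrm R o = D := ⟨_, rfl⟩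
  obtain ⟨W, hW, hWD⟩ := exists_geodesic R o
  rw [hD] at hWD ⊢
  obtain ⟨k, hk⟩ : ∃ k, k = D / 2 := ⟨_, rfl⟩
  obtain ⟨r, hr⟩ : ∃ r, r = k / 2 := ⟨_, rfl⟩
  obtain ⟨m, hm⟩ : ∃ m, m = value R (W.take k) := ⟨_, rfl⟩
  obtain ⟨V1, hV1, hV1D⟩ := exists_geodesic R (o⁻¹ * (m * o))
  obtain ⟨V2, hV2, hV2D⟩ := exists_geodesic R (m * o)⁻¹
  have e1 : V1.length ≤ D := by rw [hV1D, ← hD]; exact ho _
  have e2 : V2.length ≤ D := by rw [hV2D, ← hD]; exact ho _
  have hsplit : W.take k ++ W.drop k = W := List.take_append_drop k W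
  have hkD : (W.take k).length = k := by rw [List.length_take]; omega
  have hdD : (W.drop k).length = D - k := by rw [List.length_drop, hWD]
  have hgeo : nrm R (value R W) = W.length := by rw [hW, hD, hWD]
  -- distances to the midpoint
  have hmk : nrm R m = k := by
    rw [hm, ← hkD]
    rw [← hsplit] at hgeo
    have := nrm_prefix R hgeo
    rw [hkD] at this ⊢
    exact this
  have hmo : D - k ≤ nrm R (m⁻¹ * o) := by
    have h1 := nrm_mul R m (m⁻¹ * o)
    rw [mul_inv_cancel_left, hD, hmk] at h1
    omega
  -- the functions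
  obtain ⟨a, ha⟩ : ∃ a : Grp R → ℤ, a = fun g => max 0 ((r : ℤ) - nrm R (m⁻¹ * g)) := ⟨_, rfl⟩
  obtain ⟨b, hb⟩ : ∃ b : Grp R → ℤ, b = fun g => (nrm R (1 * g) : ℤ) := ⟨_, rfl⟩
  have hla : Lip R a := by rw [ha]; exact lip_bump R m⁻¹ r
  have hlb : Lip R b := by rw [hb]; exact lip_nrm R 1
  have hclosed : value R (W ++ V1 ++ V2) = 1 := by
    rw [value_append, value_append, hW, hV1, hV2]
    group
  have hiso := isoperimetric R hR hla hlb 1 _ hclosed
  rw [I_append, I_append, I_eq_zero R (w := V1), I_eq_zero R (w := V2)] at hiso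
  · have hlow : (r : ℤ) ^ 2 ≤ I R a b 1 W := by
      rw [← hsplit, I_append, one_mul, ← hm]
      have h0 : ∀ g, 0 ≤ a g := fun g => by rw [ha]; exact le_max_left _ _
      have h1 : ((0 : ℕ) : ℤ) ^ 2 ≤ I R a b 1 (W.take k) := by
        apply I_lower R h0 1 (W.take k) 0 (Nat.zero_le _)
        · intro p s hps
          have := h0 (1 * value R p)
          have h5 : (0 : ℤ) ≤ p.length := by positivity
          push_cast
          linarith
        · intro p s hps
          rw [hb]
          simp only [one_mul, nrm_one]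
          rw [← hsplit, ← hps, List.append_assoc] at hgeo
          rw [nrm_prefix R hgeo]
          simp
      have h2 : (r : ℤ) ^ 2 ≤ I R a b m (W.drop k) := by
        apply I_lower R h0 m (W.drop k) r
        · rw [hdD]; omega
        · intro p s hps
          rw [ha]
          simp only [inv_mul_cancel_left]
          have h5 := nrm_le R p
          have h6 : (nrm R (value R p) : ℤ) ≤ p.length := by exact_mod_cast h5
          have := le_max_right (0 : ℤ) ((r : ℤ) - nrm R (value R p))
          linarith
        · intro p s hps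
          rw [hb]
          simp only [one_mul]
          rw [hmk]
          rw [← hsplit, ← hps, ← List.append_assoc] at hgeo
          have := nrm_prefix R hgeo
          rw [value_append, ← hm, List.length_append, hkD] at this
          rw [this]
          push_cast
          rfl
      push_cast at h1
      linarith
    have hlen : ((W ++ V1 ++ V2).length : ℤ) ≤ 3 * D := by
      rw [List.length_append, List.length_append]
      push_cast
      have : (V1.length : ℤ) ≤ D := by exact_mod_cast e1
      have : (V2.length : ℤ) ≤ D := by exact_mod_cast e2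
      rw [hWD]
      linarith
    have hmain : (r : ℤ) ^ 2 ≤ 2 * (size R : ℤ) ^ 2 * (3 * D) := by
      have h1 := le_abs_self (I R a b 1 W + 0 + 0)
      have h2 : 2 * (size R : ℤ) ^ 2 * (W ++ V1 ++ V2).length ≤ 2 * (size R : ℤ) ^ 2 * (3 * D) :=
        mul_le_mul_of_nonneg_left hlen (by positivity)
      linarith
    have hmain' : r ^ 2 ≤ 2 * size R ^ 2 * (3 * D) := by exact_mod_cast hmain
    have hDr : D ≤ 4 * r + 3 := by omega
    rcases Nat.eq_zero_or_pos r with hr0 | hr0
    · subst hr0
      omega
    · have h7 : D ≤ 7 * r := by omega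
      have h8 : r * r ≤ (42 * size R ^ 2) * r := by
        calc r * r = r ^ 2 := by ring
          _ ≤ 2 * size R ^ 2 * (3 * D) := hmain'
          _ ≤ 2 * size R ^ 2 * (3 * (7 * r)) := by gcongr
          _ = (42 * size R ^ 2) * r := by ring
      have h9 : r ≤ 42 * size R ^ 2 := Nat.le_of_mul_le_mul_right h8 hr0
      omega
  · -- the third side
    intro p s hps
    rw [← hps] at hV2 hV2D
    obtain ⟨q, hq⟩ : ∃ q, q = 1 * value R (W ++ V1) * value R p := ⟨_, rfl⟩
    rw [← hq, ha]
    have f1 := nrm_le R p
    have f2 := nrm_le R s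
    rw [value_append] at hV2
    rw [value_append, hW, hV1, one_mul, mul_inv_cancel_left] at hq
    have f3 : nrm R o ≤ nrm R (m⁻¹ * q) + nrm R (value R p) := by
      have h1 := nrm_mul R (m⁻¹ * q) (value R p)⁻¹
      rw [nrm_inv] at h1
      have h2 : m⁻¹ * q * (value R p)⁻¹ = o := by rw [hq]; group
      rwa [h2] at h1
    have f4 : nrm R m ≤ nrm R (m⁻¹ * q) + nrm R (value R s) := by
      have h1 := nrm_mul R (m⁻¹ * q) (value R s)
      have h2 : m⁻¹ * q * value R s = m⁻¹ := by
        rw [hq, mul_assoc, mul_assoc, hV2]; group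
      rwa [h2, nrm_inv] at h1
    have f5 : (p ++ s).length ≤ D := by rw [hV2D, ← hD]; exact ho _
    rw [List.length_append] at f5
    have f6 : (r : ℤ) ≤ nrm R (m⁻¹ * q) := by
      have : r ≤ nrm R (m⁻¹ * q) := by omega
      exact_mod_cast this
    simp only
    apply max_eq_left
    linarith
  · -- the second side
    intro p s hps
    rw [← hps] at hV1 hV1D
    obtain ⟨q, hq⟩ : ∃ q, q = 1 * value R W * value R p := ⟨_, rfl⟩
    rw [← hq, ha]
    have f1 := nrm_le R p
    have f2 := nrm_le R s
    rw [value_append] at hV1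
    rw [hW, one_mul] at hq
    have f3 : nrm R o ≤ nrm R (m⁻¹ * q) + nrm R (value R s) := by
      have h1 := nrm_mul R (m⁻¹ * q) (value R s)
      have h2 : m⁻¹ * q * value R s = o := by
        rw [hq, mul_assoc, mul_assoc, hV1]; group
      rwa [h2] at h1
    have f4 : nrm R (m⁻¹ * o) ≤ nrm R (m⁻¹ * q) + nrm R (value R p) := by
      have h1 := nrm_mul R (m⁻¹ * q) (value R p)⁻¹
      have h2 : m⁻¹ * q * (value R p)⁻¹ = m⁻¹ * o := by
        rw [hq]; group
      rwa [h2, nrm_inv] at h1
    have f5 : (p ++ s).length ≤ D := by rw [hV1D, ← hD]; exact ho _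
    rw [List.length_append] at f5
    have f6 : (r : ℤ) ≤ nrm R (m⁻¹ * q) := by
      have : r ≤ nrm R (m⁻¹ * q) := by omega
      exact_mod_cast this
    simp only
    apply max_eq_left
    linarith

/-- The value of a sequence of at most `D` letters. -/
def sval {D : ℕ} (f : Fin D → Option (Fin n × Bool)) : Grp R :=
  (List.ofFn fun i => (f i).elim 1 (lv R)).prod

theorem exists_sval (D : ℕ) (w : Word n) (hw : w.length ≤ D) :
    ∃ f : Fin D → Option (Fin n × Bool), sval R f = value R w := by
  induction D generalizing w with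
  | zero =>
    rw [List.length_eq_zero_iff.1 (Nat.le_zero.1 hw)]
    exact ⟨fun _ => none, by simp [sval, value_nil]⟩
  | succ D ih =>
    cases w with
    | nil =>
      obtain ⟨f, hf⟩ := ih [] (Nat.zero_le _)
      refine ⟨Fin.cons none f, ?_⟩
      rw [sval, List.ofFn_succ, List.prod_cons]
      simpa [sval] using hf
    | cons x w =>
      obtain ⟨f, hf⟩ := ih w (by simpa using hw)
      refine ⟨Fin.cons (some x) f, ?_⟩
      rw [sval, List.ofFn_succ, List.prod_cons, value_cons, ← hf]
      simp [sval]

theorem card_bound [Finite (Grp R)] (hR : IsDehn R) :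
    Nat.card (Grp R) ≤ (2 * n + 1) ^ (168 * size R ^ 2 + 3) := by
  have h : Function.Surjective
      (sval R : (Fin (168 * size R ^ 2 + 3) → Option (Fin n × Bool)) → Grp R) := by
    intro g
    obtain ⟨w, rfl, hw⟩ := exists_geodesic R g
    exact exists_sval R _ w (hw.le.trans (nrm_bound R hR _))
  refine (Nat.card_le_card_of_surjective _ h).trans ?_
  simp [Nat.card_eq_fintype_card, Fintype.card_option, mul_comm]

theorem log_card_bound [Finite (Grp R)] (hR : IsDehn R) {N : ℕ} (hN : 2 ^ N ≤ Nat.card (Grp R)) :
    N ≤ 600 * (size R + 1) ^ 3 := by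
  have h1 := hN.trans (card_bound R hR)
  have h2 : 2 * n + 1 ≤ 2 ^ (2 * size R + 1) := by
    have h3 : n ≤ size R := by unfold size; omega
    have h4 : 2 * size R + 1 < 2 ^ (2 * size R + 1) := Nat.lt_two_pow_self
    omega
  have h3 : 2 ^ N ≤ 2 ^ ((2 * size R + 1) * (168 * size R ^ 2 + 3)) := by
    rw [pow_mul]
    exact h1.trans (Nat.pow_le_pow_left h2 _)
  have h4 := (Nat.pow_le_pow_iff_right (by norm_num : 1 < 2)).1 h3
  refine h4.trans ?_
  nlinarith [Nat.zero_le (size R), Nat.zero_le (size R ^ 2), Nat.zero_le (size R ^ 3)]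

end Pool.Agent.H668R2.Dehn
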