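import Mathlib
import Pool.Agent.H668R2.Dehn.Basic

set_option autoImplicit false

/-! Short presentations of huge finite groups. -/

namespace Pool.Agent.H668R2.Dehn

section Abstract

variable {G : Type} [Group G] {a s t y : G}

/-- Conjugates. -/
def cc (a t : G) (i : ℕ) : G := t ^ i * a * (t ^ i)⁻¹

theorem cc_zero : cc a t 0 = a := by simp [cc]

theorem t_cc (i : ℕ) : t * cc a t i * t⁻¹ = cc a t (i + 1) := by
  simp only [cc, pow_succ', mul_inv_rev]
  group

theorem ti_cc (i j : ℕ) : t ^ i * cc a t j * (t ^ i)⁻¹ = cc a t (i + j) := by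
  simp only [cc, pow_add, mul_inv_rev]
  group

theorem s_cc (h2 : s * t = t * s) (h4 : s * a * s⁻¹ = a * (t * a * t⁻¹)) (i : ℕ) :
    s * cc a t i * s⁻¹ = cc a t i * cc a t (i + 1) := by
  have h : Commute s (t ^ i) := (show Commute s t from h2).pow_right i
  have h' : s * t ^ i = t ^ i * s := h
  calc s * cc a t i * s⁻¹ = (s * t ^ i) * a * (s * t ^ i)⁻¹ := by
        simp only [cc, mul_inv_rev]; group
    _ = t ^ i * (s * a * s⁻¹) * (t ^ i)⁻¹ := by rw [h']; group
    _ = cc a t i * cc a t (i + 1) := by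
      rw [h4]
      simp only [cc, pow_succ, mul_inv_rev]
      group

theorem y_t_pow (h5 : y * t * y⁻¹ = t ^ 2) (i : ℕ) : y * t ^ i * y⁻¹ = t ^ (2 * i) := by
  rw [← conj_pow, h5, pow_mul]

theorem y_cc (h5 : y * t * y⁻¹ = t ^ 2) (h7 : y * a * y⁻¹ = a) (i : ℕ) :
    y * cc a t i * y⁻¹ = cc a t (2 * i) := by
  calc y * cc a t i * y⁻¹ = (y * t ^ i * y⁻¹) * (y * a * y⁻¹) * (y * t ^ i * y⁻¹)⁻¹ := by
        simp only [cc]; group
    _ = cc a t (2 * i) := by rw [y_t_pow h5, h7, cc]

theorem cc_comm (h2 : s * t = t * s) (h3 : Commute a (t * a * t⁻¹))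
    (h4 : s * a * s⁻¹ = a * (t * a * t⁻¹)) (K : ℕ) :
    ∀ k ≤ K, ∀ i, Commute (cc a t i) (cc a t (i + k)) := by
  induction K with
  | zero =>
    intro k hk i
    rw [Nat.le_zero.1 hk, Nat.add_zero]
  | succ K ih =>
    have h1 : ∀ i, Commute (cc a t i) (cc a t (i + 1)) := by
      intro i
      have := h3
      have e1 : cc a t i = t ^ i * a * (t ^ i)⁻¹ := rfl
      have e2 : cc a t (i + 1) = t ^ i * (t * a * t⁻¹) * (t ^ i)⁻¹ := by
        simp only [cc, pow_succ, mul_inv_rev]; group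
      rw [e1, e2, Commute, SemiconjBy]
      have h3' : a * (t * a * t⁻¹) = (t * a * t⁻¹) * a := h3
      calc t ^ i * a * (t ^ i)⁻¹ * (t ^ i * (t * a * t⁻¹) * (t ^ i)⁻¹)
          = t ^ i * (a * (t * a * t⁻¹)) * (t ^ i)⁻¹ := by group
        _ = t ^ i * ((t * a * t⁻¹) * a) * (t ^ i)⁻¹ := by rw [h3']
        _ = _ := by group
    intro k hk i
    rcases Nat.lt_or_ge k (K + 1) with hk' | hk'
    · exact ih k (by omega) i
    · obtain rfl : k = K + 1 := by omega
      rcases Nat.eq_zero_or_pos K with hK | hK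
      · subst hK
        exact h1 i
      -- the main step
      have g1 : Commute (cc a t i) (cc a t (i + K)) := ih K le_rfl i
      have g2 : Commute (cc a t i * cc a t (i + 1)) (cc a t (i + K) * cc a t (i + K + 1)) := by
        rw [← s_cc h2 h4, ← s_cc h2 h4, Commute, SemiconjBy]
        have g1' : cc a t i * cc a t (i + K) = cc a t (i + K) * cc a t i := g1
        calc s * cc a t i * s⁻¹ * (s * cc a t (i + K) * s⁻¹)
            = s * (cc a t i * cc a t (i + K)) * s⁻¹ := by group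
          _ = s * (cc a t (i + K) * cc a t i) * s⁻¹ := by rw [g1']
          _ = _ := by group
      have g3 : Commute (cc a t (i + 1)) (cc a t (i + K)) := by
        have := ih (K - 1) (by omega) (i + 1)
        have e : i + 1 + (K - 1) = i + K := by omega
        rwa [e] at this
      have g4 : Commute (cc a t (i + 1)) (cc a t (i + K + 1)) := by
        have := ih K le_rfl (i + 1)
        have e : i + 1 + K = i + K + 1 := by omega
        rwa [e] at this
      have g5 : Commute (cc a t i * cc a t (i + 1)) (cc a t (i + K)) := g1.mul_left g3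
      have g6 : Commute (cc a t i * cc a t (i + 1)) (cc a t (i + K + 1)) := by
        have := g5.inv_right.mul_right g2
        rwa [inv_mul_cancel_left] at this
      have g7 : Commute (cc a t i) (cc a t (i + K + 1)) := by
        have := g6.mul_left g4.inv_left
        rwa [mul_inv_cancel_right] at this
      exact g7

theorem t_order {n : ℕ} (h5 : y * t * y⁻¹ = t ^ 2) (h8 : y ^ n = 1) : t ^ (2 ^ n - 1) = 1 := by
  have h : ∀ k, y ^ k * t * (y ^ k)⁻¹ = t ^ 2 ^ k := by
    intro k
    induction k with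
    | zero => simp
    | succ k ih =>
      calc y ^ (k + 1) * t * (y ^ (k + 1))⁻¹ = y * (y ^ k * t * (y ^ k)⁻¹) * y⁻¹ := by
            rw [pow_succ']; group
        _ = t ^ 2 ^ (k + 1) := by rw [ih, y_t_pow h5, pow_succ' 2 k]
  have h1 := h n
  rw [h8, one_mul, inv_one, mul_one] at h1
  have h2 : t ^ (2 ^ n - 1) * t = 1 * t := by
    rw [← pow_succ, Nat.sub_add_cancel Nat.one_le_two_pow, one_mul]
    exact h1.symm
  exact mul_right_cancel h2

/-- The normal subgroup generated by `a`. -/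
def NN (a t : G) : Subgroup G := Subgroup.closure (Set.range (cc a t))

theorem NN_finite (h1 : a * a = 1) (h2 : s * t = t * s) (h3 : Commute a (t * a * t⁻¹))
    (h4 : s * a * s⁻¹ = a * (t * a * t⁻¹)) (ht : IsOfFinOrder t) :
    (NN a t : Set G).Finite := by
  have hcomm : ∀ x ∈ Set.range (cc a t), ∀ z ∈ Set.range (cc a t), x * z = z * x := by
    rintro _ ⟨i, rfl⟩ _ ⟨j, rfl⟩
    rcases le_total i j with h | h
    · obtain ⟨k, rfl⟩ := Nat.exists_eq_add_of_le h
      exact cc_comm h2 h3 h4 k k le_rfl i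
    · obtain ⟨k, rfl⟩ := Nat.exists_eq_add_of_le h
      exact (cc_comm h2 h3 h4 k k le_rfl j).symm
  have hfin : (Set.range (cc a t)).Finite := by
    have h5 : (Set.range fun i : ℕ => t ^ i).Finite := by
      have := ht.finite_powers
      rwa [Submonoid.coe_powers] at this
    refine (h5.image fun x => x * a * x⁻¹).subset ?_
    rintro _ ⟨i, rfl⟩
    exact ⟨t ^ i, ⟨i, rfl⟩, rfl⟩
  have hic : IsMulCommutative (NN a t) := Subgroup.isMulCommutative_closure hcomm
  have hfg : Group.FG (NN a t) := by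
    have : Finite (Set.range (cc a t)) := hfin
    exact Group.closure_finite_fg _
  have htor : IsMulTorsion (NN a t) := by
    rintro ⟨x, hx⟩
    rw [isOfFinOrder_iff_pow_eq_one]
    refine ⟨2, by norm_num, ?_⟩
    apply Subtype.ext
    change x ^ 2 = 1
    induction hx using Subgroup.closure_induction with
    | mem x hx =>
      obtain ⟨i, rfl⟩ := hx
      rw [cc, conj_pow, sq, h1, mul_one, mul_inv_cancel]
    | one => simp
    | mul x z hx hz ihx ihz =>
      have h6 : Commute x z := by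
        have := hic.is_comm.comm (⟨x, hx⟩ : NN a t) ⟨z, hz⟩
        exact congrArg Subtype.val this
      rw [h6.mul_pow, ihx, ihz, one_mul]
    | inv x hx ihx => rw [inv_pow, ihx, inv_one]
  let ci : CommGroup (NN a t) :=
    { (inferInstance : Group (NN a t)) with mul_comm := hic.is_comm.comm }
  have : Finite (NN a t) := @CommGroup.finite_of_fg_isMulTorsion _ ci hfg htor
  exact Set.toFinite _

theorem conj_mem_NN {x : G} (hx : ∀ i, x * cc a t i * x⁻¹ ∈ NN a t) {ν : G} (hν : ν ∈ NN a t) :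
    x * ν * x⁻¹ ∈ NN a t := by
  induction hν using Subgroup.closure_induction with
  | mem z hz =>
    obtain ⟨i, rfl⟩ := hz
    exact hx i
  | one => simp
  | mul u v _ _ ihu ihv =>
    have : x * (u * v) * x⁻¹ = (x * u * x⁻¹) * (x * v * x⁻¹) := by group
    rw [this]
    exact (NN a t).mul_mem ihu ihv
  | inv u _ ihu =>
    have : x * u⁻¹ * x⁻¹ = (x * u * x⁻¹)⁻¹ := by group
    rw [this]
    exact (NN a t).inv_mem ihu

theorem cc_mem (i : ℕ) : cc a t i ∈ NN a t := Subgroup.subset_closure ⟨i, rfl⟩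

theorem group_finite {n : ℕ} (hn : 0 < n) (hgen : Subgroup.closure {a, s, t, y} = ⊤)
    (h1 : a * a = 1) (h2 : s * t = t * s) (h3 : Commute a (t * a * t⁻¹))
    (h4 : s * a * s⁻¹ = a * (t * a * t⁻¹)) (h5 : y * t * y⁻¹ = t ^ 2) (h6 : y * s * y⁻¹ = s ^ 2)
    (h7 : y * a * y⁻¹ = a) (h8 : y ^ n = 1) : Finite G := by
  have hpos : 0 < 2 ^ n - 1 := by
    have : 1 < 2 ^ n := Nat.one_lt_two_pow hn.ne'
    omega
  have ht : IsOfFinOrder t := isOfFinOrder_iff_pow_eq_one.2 ⟨_, hpos, t_order h5 h8⟩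
  have hs : IsOfFinOrder s := isOfFinOrder_iff_pow_eq_one.2 ⟨_, hpos, t_order h6 h8⟩
  have hy : IsOfFinOrder y := isOfFinOrder_iff_pow_eq_one.2 ⟨_, hn, h8⟩
  have ha : IsOfFinOrder a := isOfFinOrder_iff_pow_eq_one.2 ⟨2, by norm_num, by rw [sq, h1]⟩
  have hN := NN_finite h1 h2 h3 h4 ht
  obtain ⟨P, hP⟩ : ∃ P : Set G, P = {g | ∃ ν ∈ NN a t, ∃ τ ∈ Submonoid.powers t,
    ∃ σ ∈ Submonoid.powers s, ∃ η ∈ Submonoid.powers y, g = ν * τ * σ * η} := ⟨_, rfl⟩
  have hPfin : P.Finite := by
    have := ((hN.mul ht.finite_powers).mul hs.finite_powers).mul hy.finite_powers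
    refine this.subset ?_
    rw [hP]
    rintro g ⟨ν, hν, τ, hτ, σ, hσ, η, hη, rfl⟩
    exact Set.mul_mem_mul (Set.mul_mem_mul (Set.mul_mem_mul hν hτ) hσ) hη
  have hclosed : ∀ x ∈ ({a, s, t, y} : Set G), ∀ g ∈ P, x * g ∈ P := by
    rw [hP]
    rintro x hx g ⟨ν, hν, τ, ⟨i, rfl⟩, σ, ⟨j, rfl⟩, η, ⟨k, rfl⟩, rfl⟩
    simp only
    rcases hx with rfl | rfl | rfl | rfl
    · refine ⟨x * ν, (NN x t).mul_mem ?_ hν, t ^ i, ⟨i, rfl⟩, s ^ j, ⟨j, rfl⟩, y ^ k, ⟨k, rfl⟩,
        by group⟩
      have := cc_mem (a := x) (t := t) 0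
      rwa [cc_zero] at this
    · refine ⟨x * ν * x⁻¹, conj_mem_NN (fun i => ?_) hν, t ^ i, ⟨i, rfl⟩, x ^ (j + 1),
        ⟨j + 1, rfl⟩, y ^ k, ⟨k, rfl⟩, ?_⟩
      · rw [s_cc h2 h4]
        exact (NN a t).mul_mem (cc_mem _) (cc_mem _)
      · have h' : x * t ^ i = t ^ i * x := (show Commute x t from h2).pow_right i
        calc x * (ν * t ^ i * x ^ j * y ^ k) = (x * ν * x⁻¹) * (x * t ^ i) * x ^ j * y ^ k := by
              group
          _ = _ := by rw [h', pow_succ']; group
    · refine ⟨x * ν * x⁻¹, conj_mem_NN (fun i => ?_) hν, x ^ (i + 1), ⟨i + 1, rfl⟩, s ^ j,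
        ⟨j, rfl⟩, y ^ k, ⟨k, rfl⟩, ?_⟩
      · rw [t_cc]
        exact cc_mem _
      · rw [pow_succ']; group
    · refine ⟨x * ν * x⁻¹, conj_mem_NN (fun i => ?_) hν, t ^ (2 * i), ⟨2 * i, rfl⟩, s ^ (2 * j),
        ⟨2 * j, rfl⟩, x ^ (k + 1), ⟨k + 1, rfl⟩, ?_⟩
      · rw [y_cc h5 h7]
        exact cc_mem _
      · rw [← y_t_pow h5, ← y_t_pow h6, pow_succ' x]
        group
  have hpow : ∀ x ∈ ({a, s, t, y} : Set G), ∀ k : ℕ, ∀ g ∈ P, x ^ k * g ∈ P := by
    intro x hx k
    induction k with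
    | zero => intro g hg; simpa using hg
    | succ k ih =>
      intro g hg
      rw [pow_succ, mul_assoc]
      exact ih _ (hclosed x hx g hg)
  have hord : ∀ x ∈ ({a, s, t, y} : Set G), IsOfFinOrder x := by
    rintro x (rfl | rfl | rfl | rfl) <;> assumption
  have hinv : ∀ x ∈ ({a, s, t, y} : Set G), ∀ g ∈ P, x⁻¹ * g ∈ P := by
    intro x hx g hg
    obtain ⟨m, hm, hxm⟩ := isOfFinOrder_iff_pow_eq_one.1 (hord x hx)
    obtain ⟨m, rfl⟩ := Nat.exists_eq_succ_of_ne_zero hm.ne'
    have : x⁻¹ = x ^ m := by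
      rw [Nat.succ_eq_add_one, pow_succ] at hxm
      exact (eq_inv_of_mul_eq_one_left hxm).symm
    rw [this]
    exact hpow x hx m g hg
  have hall : ∀ g : G, g ∈ P := by
    intro g
    have hg : g ∈ Subgroup.closure {a, s, t, y} := by rw [hgen]; exact Subgroup.mem_top g
    induction hg using Subgroup.closure_induction_left with
    | one =>
      rw [hP]
      exact ⟨1, (NN a t).one_mem, 1, Submonoid.one_mem _, 1, Submonoid.one_mem _, 1,
        Submonoid.one_mem _, by group⟩
    | mul_left x hx z _ ih => exact hclosed x hx z ih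
    | inv_mul_cancel x hx z _ ih => exact hinv x hx z ih
  exact Set.finite_univ_iff.1 (hPfin.subset fun g _ => hall g)

end Abstract

/-- The relators. The generators `0, 1, 2, 3` are written `a`, `s`, `t`, `y`. -/
def fam (n : ℕ) : Rels 4 :=
  [[(0, true), (0, true)],
   [(1, true), (2, true), (1, false), (2, false)],
   [(0, true), (2, true), (0, true), (2, false), (0, false), (2, true), (0, false), (2, false)],
   [(1, true), (0, true), (1, false), (2, true), (0, false), (2, false), (0, false)],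
   [(3, true), (2, true), (3, false), (2, false), (2, false)],
   [(3, true), (1, true), (3, false), (1, false), (1, false)],
   [(3, true), (0, true), (3, false), (0, false)],
   List.replicate n (3, true)]

theorem size_fam (n : ℕ) : size (fam n) = n + 39 := by
  simp [size, fam]
  ring

theorem length_code_fam (n : ℕ) : (code (fam n)).length ≤ 4 * n + 200 := by
  simp [code, fam, wordCode, letterCode]
  omega

end Pool.Agent.H668R2.Dehn
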