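import Mathlib
import Pool.Agent.H668R2.Dehn.Fam
import Pool.Agent.H668R2.Dehn.Iso

set_option autoImplicit false

/-! The groups of the family are finite and huge. -/

namespace Pool.Agent.H668R2.Dehn

/-- A generator. -/
def ge {n : ℕ} (R : Rels n) (i : Fin n) : Grp R := lv R (i, true)

theorem lv_true {n : ℕ} (R : Rels n) (i : Fin n) : lv R (i, true) = ge R i := rfl

theorem lv_false {n : ℕ} (R : Rels n) (i : Fin n) : lv R (i, false) = (ge R i)⁻¹ :=
  lv_not R (i, true)

theorem value_replicate {n : ℕ} (R : Rels n) (i : Fin n) (k : ℕ) :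
    value R (List.replicate k (i, true)) = ge R i ^ k := by
  induction k with
  | zero => rw [List.replicate_zero, value_nil, pow_zero]
  | succ k ih => rw [List.replicate_succ, value_cons, ih, pow_succ', lv_true]

theorem closure_ge {n : ℕ} (R : Rels n) : Subgroup.closure (Set.range (ge R)) = ⊤ :=
  PresentedGroup.closure_range_of (relSet R)

theorem fam_finite {n : ℕ} (hn : 0 < n) : Finite (Grp (fam n)) := by
  obtain ⟨a, ha⟩ : ∃ a : Grp (fam n), a = ge _ 0 := ⟨_, rfl⟩
  obtain ⟨s, hs⟩ : ∃ a : Grp (fam n), a = ge _ 1 := ⟨_, rfl⟩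
  obtain ⟨t, ht⟩ : ∃ a : Grp (fam n), a = ge _ 2 := ⟨_, rfl⟩
  obtain ⟨y, hy⟩ : ∃ a : Grp (fam n), a = ge _ 3 := ⟨_, rfl⟩
  have hrel : ∀ r ∈ fam n, value (fam n) r = 1 := fun r hr => value_rel _ hr
  have r1 : a * a = 1 := by
    have := hrel [(0, true), (0, true)] (by simp [fam])
    simpa only [value_cons, value_nil, lv_true, lv_false, ← ha, ← hs, ← ht, ← hy, mul_one]
      using this
  have r2 := hrel [(1, true), (2, true), (1, false), (2, false)] (by simp [fam])
  have r3 := hrel [(0, true), (2, true), (0, true), (2, false), (0, false), (2, true), (0, false),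
    (2, false)] (by simp [fam])
  have r4 := hrel [(1, true), (0, true), (1, false), (2, true), (0, false), (2, false),
    (0, false)] (by simp [fam])
  have r5 := hrel [(3, true), (2, true), (3, false), (2, false), (2, false)] (by simp [fam])
  have r6 := hrel [(3, true), (1, true), (3, false), (1, false), (1, false)] (by simp [fam])
  have r7 := hrel [(3, true), (0, true), (3, false), (0, false)] (by simp [fam])
  have r8 := hrel (List.replicate n (3, true)) (by simp [fam])
  rw [value_replicate, ← hy] at r8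
  simp only [value_cons, value_nil, lv_true, lv_false, ← ha, ← hs, ← ht, ← hy, mul_one]
    at r2 r3 r4 r5 r6 r7
  refine group_finite (a := a) (s := s) (t := t) (y := y) hn ?_ r1 ?_ ?_ ?_ ?_ ?_ ?_ r8
  · rw [← closure_ge (fam n)]
    congr 1
    ext g
    simp only [Set.mem_insert_iff, Set.mem_singleton_iff, Set.mem_range, ha, hs, ht, hy]
    constructor
    · rintro (h | h | h | h)
      · exact ⟨0, h.symm⟩
      · exact ⟨1, h.symm⟩
      · exact ⟨2, h.symm⟩
      · exact ⟨3, h.symm⟩
    · rintro ⟨i, rfl⟩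
      fin_cases i <;> simp
  · have : s * t * (t * s)⁻¹ = 1 := by rw [← r2]; group
    exact mul_inv_eq_one.1 this
  · have : a * (t * a * t⁻¹) * ((t * a * t⁻¹) * a)⁻¹ = 1 := by rw [← r3]; group
    exact mul_inv_eq_one.1 this
  · have : s * a * s⁻¹ * (a * (t * a * t⁻¹))⁻¹ = 1 := by rw [← r4]; group
    exact mul_inv_eq_one.1 this
  · have : y * t * y⁻¹ * (t ^ 2)⁻¹ = 1 := by rw [← r5]; group
    exact mul_inv_eq_one.1 this
  · have : y * s * y⁻¹ * (s ^ 2)⁻¹ = 1 := by rw [← r6]; group
    exact mul_inv_eq_one.1 this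
  · have : y * a * y⁻¹ * a⁻¹ = 1 := by rw [← r7]; group
    exact mul_inv_eq_one.1 this

section Field

variable (F : Type) [Field F] [Fintype F] [CharP F 2]

/-- The points other than `0` and `1`. -/
abbrev Om : Type := {α : F // α ≠ 0 ∧ α ≠ 1}

/-- Addition of the constant function `1`. -/
def pA : Equiv.Perm (Om F → F) := Equiv.addRight 1

theorem one_add_ne (α : Om F) : 1 + α.1 ≠ 0 := by
  intro h
  apply α.2.2
  have h1 := CharTwo.add_self_eq_zero (1 : F)
  calc α.1 = (1 + 1) + α.1 := by rw [h1, zero_add]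
    _ = 1 + (1 + α.1) := by ring
    _ = 1 := by rw [h, add_zero]

/-- Multiplication by the coordinate. -/
def pT : Equiv.Perm (Om F → F) where
  toFun f α := α.1 * f α
  invFun f α := (α.1)⁻¹ * f α
  left_inv f := by
    funext α
    exact inv_mul_cancel_left₀ α.2.1 _
  right_inv f := by
    funext α
    exact mul_inv_cancel_left₀ α.2.1 _

/-- Multiplication by one plus the coordinate. -/
def pS : Equiv.Perm (Om F → F) where
  toFun f α := (1 + α.1) * f α
  invFun f α := (1 + α.1)⁻¹ * f α
  left_inv f := by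
    funext α
    exact inv_mul_cancel_left₀ (one_add_ne F α) _
  right_inv f := by
    funext α
    exact mul_inv_cancel_left₀ (one_add_ne F α) _

/-- The Frobenius map. -/
noncomputable def pY : Equiv.Perm (Om F → F) :=
  Equiv.ofBijective (fun f α => f α ^ 2) (by
    have : Function.Injective fun (f : Om F → F) (α : Om F) => f α ^ 2 := by
      intro f g h
      funext α
      have h1 := congrFun h α
      simp only at h1
      exact frobenius_inj F 2 h1
    exact Finite.injective_iff_bijective.1 this)

/-- The permutations. -/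
noncomputable def perms : Fin 4 → Equiv.Perm (Om F → F) := ![pA F, pS F, pT F, pY F]

theorem pY_pow (k : ℕ) (f : Om F → F) (α : Om F) : (pY F ^ k) f α = f α ^ 2 ^ k := by
  induction k with
  | zero => simp
  | succ k ih =>
    rw [pow_succ', Equiv.Perm.mul_apply]
    change ((pY F ^ k) f α) ^ 2 = _
    rw [ih, ← pow_mul, pow_succ]

theorem pT_apply (f : Om F → F) (α : Om F) : pT F f α = α.1 * f α := rfl
theorem pS_apply (f : Om F → F) (α : Om F) : pS F f α = (1 + α.1) * f α := rfl
theorem pA_apply (f : Om F → F) (α : Om F) : pA F f α = f α + 1 := rfl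
theorem pY_apply (f : Om F → F) (α : Om F) : pY F f α = f α ^ 2 := rfl

/-- The value of a word under the map to the permutations. -/
noncomputable def pv (w : Word 4) : Equiv.Perm (Om F → F) :=
  FreeGroup.lift (perms F) (FreeGroup.mk w)

theorem pv_nil : pv F [] = 1 := by
  unfold pv
  rw [← FreeGroup.one_eq_mk, map_one]

theorem pv_cons (x : Fin 4 × Bool) (w : Word 4) : pv F (x :: w) = pv F [x] * pv F w := by
  unfold pv
  rw [← map_mul, FreeGroup.mul_mk]
  rfl

theorem pv_true (i : Fin 4) : pv F [(i, true)] = perms F i := by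
  unfold pv
  exact FreeGroup.lift_apply_of

theorem pv_false (i : Fin 4) : pv F [(i, false)] = (perms F i)⁻¹ := by
  rw [← pv_true]
  unfold pv
  rw [← map_inv, FreeGroup.inv_mk]
  rfl

theorem pv_replicate (i : Fin 4) (k : ℕ) :
    pv F (List.replicate k (i, true)) = perms F i ^ k := by
  induction k with
  | zero => rw [List.replicate_zero, pv_nil, pow_zero]
  | succ k ih => rw [List.replicate_succ, pv_cons, ih, pow_succ', pv_true]

theorem perms_rel {n : ℕ} (hF : Fintype.card F = 2 ^ n) (r : Word 4) (hr : r ∈ fam n) :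
    pv F r = 1 := by
  simp only [fam, List.mem_cons, List.not_mem_nil, or_false] at hr
  have h2 : (2 : F) = 0 := CharTwo.two_eq_zero
  have h11 : (1 : F) + 1 = 0 := CharTwo.add_self_eq_zero 1
  have p0 : perms F 0 = pA F := rfl
  have p1 : perms F 1 = pS F := rfl
  have p2 : perms F 2 = pT F := rfl
  have p3 : perms F 3 = pY F := rfl
  have e1 : pA F * pA F = 1 := by
    ext f α
    change (f α + 1) + 1 = f α
    rw [add_assoc, h11, add_zero]
  have e2 : pS F * pT F = pT F * pS F := by
    ext f α
    change (1 + α.1) * (α.1 * f α) = α.1 * ((1 + α.1) * f α)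
    ring
  have e5 : pY F * pT F = pT F * pT F * pY F := by
    ext f α
    change (α.1 * f α) ^ 2 = α.1 * (α.1 * f α ^ 2)
    ring
  have e6 : pY F * pS F = pS F * pS F * pY F := by
    ext f α
    change ((1 + α.1) * f α) ^ 2 = (1 + α.1) * ((1 + α.1) * f α ^ 2)
    ring
  have e7 : pY F * pA F = pA F * pY F := by
    ext f α
    change (f α + 1) ^ 2 = f α ^ 2 + 1
    rw [CharTwo.add_sq, one_pow]
  obtain ⟨B, hB⟩ : ∃ B, B = pT F * pA F * (pT F)⁻¹ := ⟨_, rfl⟩
  have hB' : B = Equiv.addRight (fun α : Om F => α.1) := by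
    rw [hB, mul_inv_eq_iff_eq_mul]
    ext f α
    change α.1 * (f α + 1) = α.1 * f α + α.1
    ring
  have e3 : pA F * B = B * pA F := by
    rw [hB']
    ext f α
    change (f α + α.1) + 1 = (f α + 1) + α.1
    ring
  have e4 : pS F * pA F = pA F * B * pS F := by
    rw [hB']
    ext f α
    change (1 + α.1) * (f α + 1) = ((1 + α.1) * f α + α.1) + 1
    ring
  rcases hr with rfl | rfl | rfl | rfl | rfl | rfl | rfl | rfl
  · rw [pv_cons, pv_cons, pv_nil, pv_true, mul_one, p0, e1]
  · simp only [pv_cons F (1, true) (_ :: _), pv_cons F (2, true) (_ :: _),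
      pv_cons F (1, false) (_ :: _), pv_true, pv_false, p1, p2]
    rw [← mul_assoc, e2]
    group
  · simp only [pv_cons F (0, true) (_ :: _), pv_cons F (2, true) (_ :: _),
      pv_cons F (0, false) (_ :: _), pv_cons F (2, false) (_ :: _), pv_true, pv_false, p0, p2]
    have : pA F * (pT F * (pA F * ((pT F)⁻¹ * ((pA F)⁻¹ * (pT F * ((pA F)⁻¹ * (pT F)⁻¹)))))) =
        pA F * B * (B * pA F)⁻¹ := by rw [hB]; group
    rw [this, e3, mul_inv_cancel]
  · simp only [pv_cons F (1, true) (_ :: _), pv_cons F (0, true) (_ :: _),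
      pv_cons F (1, false) (_ :: _), pv_cons F (2, true) (_ :: _), pv_cons F (0, false) (_ :: _),
      pv_cons F (2, false) (_ :: _), pv_true, pv_false, p0, p1, p2]
    have : pS F * (pA F * ((pS F)⁻¹ * (pT F * ((pA F)⁻¹ * ((pT F)⁻¹ * (pA F)⁻¹))))) =
        (pS F * pA F) * (pA F * B * pS F)⁻¹ := by rw [hB]; group
    rw [this, e4, mul_inv_cancel]
  · simp only [pv_cons F (3, true) (_ :: _), pv_cons F (2, true) (_ :: _),
      pv_cons F (3, false) (_ :: _), pv_cons F (2, false) (_ :: _), pv_true, pv_false, p2, p3]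
    have : pY F * (pT F * ((pY F)⁻¹ * ((pT F)⁻¹ * (pT F)⁻¹))) =
        (pY F * pT F) * (pT F * pT F * pY F)⁻¹ := by group
    rw [this, e5, mul_inv_cancel]
  · simp only [pv_cons F (3, true) (_ :: _), pv_cons F (1, true) (_ :: _),
      pv_cons F (3, false) (_ :: _), pv_cons F (1, false) (_ :: _), pv_true, pv_false, p1, p3]
    have : pY F * (pS F * ((pY F)⁻¹ * ((pS F)⁻¹ * (pS F)⁻¹))) =
        (pY F * pS F) * (pS F * pS F * pY F)⁻¹ := by group
    rw [this, e6, mul_inv_cancel]
  · simp only [pv_cons F (3, true) (_ :: _), pv_cons F (0, true) (_ :: _),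
      pv_cons F (3, false) (_ :: _), pv_true, pv_false, p0, p3]
    have : pY F * (pA F * ((pY F)⁻¹ * (pA F)⁻¹)) = (pY F * pA F) * (pA F * pY F)⁻¹ := by group
    rw [this, e7, mul_inv_cancel]
  · rw [pv_replicate, p3]
    ext f α
    rw [pY_pow, ← hF, FiniteField.pow_card]
    rfl

/-- The map to the permutations. -/
noncomputable def toPerm {n : ℕ} (hF : Fintype.card F = 2 ^ n) :
    Grp (fam n) →* Equiv.Perm (Om F → F) :=
  PresentedGroup.toGroup (f := perms F) (by
    rintro _ ⟨r, hr, rfl⟩
    exact perms_rel F hF r hr)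

theorem toPerm_ge {n : ℕ} (hF : Fintype.card F = 2 ^ n) (i : Fin 4) :
    toPerm F hF (ge _ i) = perms F i := PresentedGroup.toGroup.of _

theorem power_mem {n : ℕ} (hF : Fintype.card F = 2 ^ n) (i : ℕ) :
    (Equiv.addRight (fun α : Om F => α.1 ^ i) : Equiv.Perm (Om F → F)) ∈
      (toPerm F hF).range := by
  refine ⟨ge _ 2 ^ i * ge _ 0 * (ge _ 2 ^ i)⁻¹, ?_⟩
  rw [map_mul, map_mul, map_inv, map_pow, toPerm_ge, toPerm_ge, mul_inv_eq_iff_eq_mul]
  change pT F ^ i * pA F = _ * pT F ^ i
  have h : ∀ f α, (pT F ^ i) f α = α.1 ^ i * f α := by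
    intro f α
    induction i with
    | zero => simp
    | succ i ih =>
      rw [pow_succ', Equiv.Perm.mul_apply, pT_apply, ih, pow_succ']
      ring
  ext f α
  change (pT F ^ i) (pA F f) α = (pT F ^ i) f α + α.1 ^ i
  rw [h, h, pA_apply]
  ring

theorem card_Om : Nat.card (Om F) = Fintype.card F - 2 := by
  classical
  rw [Nat.card_eq_fintype_card, Fintype.card_subtype]
  have : (Finset.univ.filter fun α : F => α ≠ 0 ∧ α ≠ 1) = Finset.univ \ {0, 1} := by
    ext α
    simp [not_or]
  rw [this, Finset.card_sdiff_of_subset (Finset.subset_univ _), Finset.card_univ,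
    Finset.card_pair zero_ne_one]

theorem card_ge {n : ℕ} (hn : 0 < n) (hF : Fintype.card F = 2 ^ n) :
    2 ^ (2 ^ n - 2) ≤ Nat.card (Grp (fam n)) := by
  classical
  have := fam_finite hn
  obtain ⟨m, hm⟩ : ∃ m, m = Nat.card (Om F) := ⟨_, rfl⟩
  have hm' : m = 2 ^ n - 2 := by rw [hm, card_Om, hF]
  -- the additive subgroup of the translations in the image
  obtain ⟨V, hV⟩ : ∃ V : AddSubmonoid (Om F → F), ∀ v, v ∈ V ↔
      (Equiv.addRight v : Equiv.Perm (Om F → F)) ∈ (toPerm F hF).range := by
    refine ⟨{ carrier := {v | (Equiv.addRight v : Equiv.Perm (Om F → F)) ∈ (toPerm F hF).range}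
              add_mem' := ?_
              zero_mem' := ?_ }, fun v => Iff.rfl⟩
    · intro v w hv hw
      have := (toPerm F hF).range.mul_mem hw hv
      have h1 : (Equiv.addRight (v + w) : Equiv.Perm (Om F → F)) =
          Equiv.addRight w * Equiv.addRight v := by
        ext f α
        change f α + (v α + w α) = f α + v α + w α
        ring
      rw [Set.mem_ofPred_eq, h1]
      exact this
    · have h1 : (Equiv.addRight 0 : Equiv.Perm (Om F → F)) = 1 := by
        ext f α
        change f α + 0 = f α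
        ring
      rw [Set.mem_ofPred_eq, h1]
      exact Subgroup.one_mem _
  have hsum : ∀ S : Finset (Fin m), (∑ i ∈ S, fun α : Om F => α.1 ^ (i : ℕ)) ∈ V :=
    fun S => sum_mem fun i _ => (hV _).2 (power_mem F hF i)
  have hinj : Function.Injective fun S : Finset (Fin m) =>
      (∑ i ∈ S, fun α : Om F => α.1 ^ (i : ℕ)) := by
    intro S T hST
    simp only at hST
    obtain ⟨q, hq⟩ : ∃ q : Polynomial F, q = ∑ i : Fin m,
        Polynomial.C ((if i ∈ S then (1 : F) else 0) - (if i ∈ T then (1 : F) else 0)) *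
          Polynomial.X ^ (i : ℕ) := ⟨_, rfl⟩
    have hcoef : ∀ i : Fin m, q.coeff i =
        (if i ∈ S then (1 : F) else 0) - (if i ∈ T then (1 : F) else 0) := by
      intro i
      rw [hq, Polynomial.finsetSum_coeff]
      simp only [Polynomial.coeff_C_mul, Polynomial.coeff_X_pow]
      rw [Finset.sum_eq_single i]
      · simp
      · intro j _ hj
        rw [if_neg (show ¬ ((i : ℕ) = (j : ℕ)) from fun h => hj (Fin.ext h.symm)), mul_zero]
      · intro h
        exact absurd (Finset.mem_univ i) h
    have heval : ∀ α : Om F, q.eval α.1 = 0 := by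
      intro α
      have h1 := congrFun hST α
      rw [Finset.sum_apply, Finset.sum_apply] at h1
      rw [hq, Polynomial.eval_finsetSum]
      simp only [Polynomial.eval_mul, Polynomial.eval_C, Polynomial.eval_pow, Polynomial.eval_X,
        sub_mul, ite_mul, one_mul, zero_mul, Finset.sum_sub_distrib]
      rw [Finset.sum_ite_mem, Finset.sum_ite_mem, Finset.univ_inter, Finset.univ_inter, h1,
        sub_self]
    have hdeg : q.degree < m := by
      rw [hq]
      refine (Polynomial.degree_sum_le _ _).trans_lt ?_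
      rw [Finset.sup_lt_iff (by exact WithBot.bot_lt_coe m)]
      intro i _
      refine (Polynomial.degree_C_mul_X_pow_le _ _).trans_lt ?_
      exact_mod_cast i.2
    have hq0 : q = 0 := by
      apply Polynomial.eq_zero_of_degree_lt_of_eval_finset_eq_zero
        (Finset.univ.image fun α : Om F => α.1)
      · rw [Finset.card_image_of_injective _ Subtype.val_injective, Finset.card_univ,
          ← Nat.card_eq_fintype_card, ← hm]
        exact hdeg
      · intro x hx
        obtain ⟨α, _, rfl⟩ := Finset.mem_image.1 hx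
        exact heval α
    ext i
    have h1 := hcoef i
    rw [hq0, Polynomial.coeff_zero] at h1
    by_cases hS : i ∈ S <;> by_cases hT : i ∈ T <;> simp [hS, hT] at h1 ⊢
  have hinj2 : Function.Injective fun S : Finset (Fin m) =>
      (⟨_, (hV _).1 (hsum S)⟩ : (toPerm F hF).range) := by
    intro S T hST
    apply hinj
    have h1 := congrArg Subtype.val hST
    simp only at h1 ⊢
    have h2 := DFunLike.congr_fun h1 0
    simpa using h2
  have hfin : Finite (toPerm F hF).range :=
    Finite.of_surjective _ (toPerm F hF).rangeRestrict_surjective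
  calc 2 ^ (2 ^ n - 2) = Nat.card (Finset (Fin m)) := by
        rw [Nat.card_eq_fintype_card, Fintype.card_finset, Fintype.card_fin, hm']
    _ ≤ Nat.card (toPerm F hF).range := Nat.card_le_card_of_injective _ hinj2
    _ ≤ Nat.card (Grp (fam n)) :=
        Nat.card_le_card_of_surjective _ (toPerm F hF).rangeRestrict_surjective

end Field

theorem card_fam {n : ℕ} (hn : 0 < n) : 2 ^ (2 ^ n - 2) ≤ Nat.card (Grp (fam n)) := by
  have : Fact (Nat.Prime 2) := ⟨Nat.prime_two⟩
  let _ : Fintype (GaloisField 2 n) := Fintype.ofFinite _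
  refine card_ge (GaloisField 2 n) hn ?_
  rw [← Nat.card_eq_fintype_card, GaloisField.card 2 n hn.ne']

end Pool.Agent.H668R2.Dehn
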