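import Mathlib
import Pool.Agent.H668R2.Dehn.Basic

set_option autoImplicit false

/-! The output of a Turing machine is at most linear in the length of the input and the running
time. -/

namespace Pool.Agent.H668R2.Dehn

open Turing StateTransition

section

variable {K : Type} [DecidableEq K] {Γ : K → Type} {Λ σ : Type}

/-- A bound for the number of symbols pushed by a statement. -/
def pushes : TM2.Stmt Γ Λ σ → ℕ
  | TM2.Stmt.push _ _ q => pushes q + 1
  | TM2.Stmt.peek _ _ q => pushes q
  | TM2.Stmt.pop _ _ q => pushes q
  | TM2.Stmt.load _ q => pushes q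
  | TM2.Stmt.branch _ q₁ q₂ => pushes q₁ + pushes q₂
  | TM2.Stmt.goto _ => 0
  | TM2.Stmt.halt => 0

theorem stepAux_length (q : TM2.Stmt Γ Λ σ) (v : σ) (S : ∀ k, List (Γ k)) (k : K) :
    ((TM2.stepAux q v S).stk k).length ≤ (S k).length + pushes q := by
  induction q generalizing v S with
  | push j f q ih =>
    rw [TM2.stepAux]
    refine (ih _ _).trans ?_
    rw [pushes]
    by_cases h : k = j
    · subst h
      simp
      omega
    · rw [Function.update_of_ne h]
      omega
  | peek j f q ih =>
    rw [TM2.stepAux]
    exact ih _ _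
  | pop j f q ih =>
    rw [TM2.stepAux]
    refine (ih _ _).trans ?_
    rw [pushes]
    by_cases h : k = j
    · subst h
      simp
    · rw [Function.update_of_ne h]
  | load f q ih =>
    rw [TM2.stepAux]
    exact ih _ _
  | branch f q₁ q₂ ih₁ ih₂ =>
    rw [TM2.stepAux, pushes]
    cases f v
    · exact (ih₂ _ _).trans (by omega)
    · exact (ih₁ _ _).trans (by omega)
  | goto f => simp [TM2.stepAux, pushes]
  | halt => simp [TM2.stepAux, pushes]

end

theorem steps_length (tm : FinTM2) : ∃ C : ℕ, ∀ (j : ℕ) (c c' : tm.Cfg),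
    (flip bind tm.step)^[j] (some c) = some c' →
      ∀ k, (c'.stk k).length ≤ (c.stk k).length + C * j := by
  classical
  let _ := tm.ΛFin
  refine ⟨∑ l : tm.Λ, pushes (tm.m l), fun j => ?_⟩
  induction j with
  | zero =>
    intro c c' h k
    simp only [Function.iterate_zero, id_eq, Option.some.injEq] at h
    subst h
    simp
  | succ j ih =>
    intro c c' h k
    rw [Function.iterate_succ_apply] at h
    obtain ⟨l, v, S⟩ := c
    cases l with
    | none =>
      exfalso
      have h1 : flip bind tm.step (some (⟨none, v, S⟩ : tm.Cfg)) = none := rfl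
      rw [h1] at h
      have h2 : ∀ i, (flip bind tm.step)^[i] (none : Option tm.Cfg) = none := by
        intro i
        induction i with
        | zero => rfl
        | succ i ihi => rw [Function.iterate_succ_apply]; exact ihi
      rw [h2] at h
      exact absurd h (by simp)
    | some l =>
      have h1 : flip bind tm.step (some (⟨some l, v, S⟩ : tm.Cfg)) =
          some (TM2.stepAux (tm.m l) v S) := rfl
      rw [h1] at h
      have h2 := ih _ _ h k
      have h3 := stepAux_length (tm.m l) v S k
      have h4 : pushes (tm.m l) ≤ ∑ l : tm.Λ, pushes (tm.m l) :=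
        Finset.single_le_sum (f := fun l => pushes (tm.m l)) (fun _ _ => Nat.zero_le _)
          (Finset.mem_univ l)
      change _ ≤ (S k).length + _
      rw [Nat.mul_succ]
      omega

theorem mpr_length {A B : Type} (e : A = B) (h : List A = List B) (L : List B) :
    (h.mpr L).length = L.length := by
  subst e
  rfl

theorem output_length (M : TM2ComputableAux Sym Sym) : ∃ C : ℕ, ∀ {n m : ℕ} (R : Rels n)
    (R' : Rels m) (t : ℕ), Outputs M R R' t → (code R').length ≤ (code R).length + C * t := by
  obtain ⟨C, hC⟩ := steps_length M.tm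
  refine ⟨C, ?_⟩
  rintro n m R R' t ⟨⟨⟨j, hj⟩, hjt⟩⟩
  have h1 := hC j _ _ hj M.tm.k₁
  have h2 : ((haltList M.tm ((code R').map M.outputAlphabet.invFun)).stk M.tm.k₁).length =
      (code R').length := by
    simp [haltList]
  have h3 : ((initList M.tm ((code R).map M.inputAlphabet.invFun)).stk M.tm.k₁).length ≤
      (code R).length := by
    unfold initList
    simp only
    by_cases h : M.tm.k₁ = M.tm.k₀
    · rw [dif_pos h]
      rw [← List.length_map (f := M.inputAlphabet.invFun) (as := code R)]
      exact (mpr_length (congrArg M.tm.Γ h) _ _).le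
    · rw [dif_neg h]
      exact Nat.zero_le _
  rw [h2] at h1
  have h4 : C * j ≤ C * t := Nat.mul_le_mul_left C hjt
  omega

theorem size_le_code {n : ℕ} (R : Rels n) : size R ≤ (code R).length := by
  unfold size code
  rw [List.length_append, List.length_replicate, List.length_flatMap]
  apply Nat.add_le_add_left
  apply List.sum_le_sum
  intro r _
  rw [List.length_cons]
  refine Nat.le_succ_of_le ?_
  unfold wordCode
  rw [List.length_flatMap]
  calc r.length = (r.map fun _ => 1).sum := by simp
    _ ≤ _ := by
      apply List.sum_le_sum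
      intro x _
      simp [letterCode]

/-- A polynomial is eventually smaller than the exponential function. -/
theorem exists_lt_two_pow (p : Polynomial ℕ) : ∃ N : ℕ, ∀ n ≥ N, p.eval n < 2 ^ n := by
  have hmono : ∀ (k c : ℕ), ∃ N : ℕ, ∀ n ≥ N, c * n ^ k < 2 ^ n := by
    intro k c
    have h1 := tendsto_pow_const_div_const_pow_of_one_lt k (one_lt_two : (1 : ℝ) < 2)
    have h2 := h1.const_mul (c : ℝ)
    rw [mul_zero] at h2
    obtain ⟨N, hN⟩ := Filter.eventually_atTop.1 (h2.eventually (gt_mem_nhds zero_lt_one))
    refine ⟨N, fun n hn => ?_⟩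
    have h3 := hN n hn
    rw [← mul_div_assoc, div_lt_one (by positivity)] at h3
    exact_mod_cast h3
  have key : ∀ c : ℕ, ∃ N : ℕ, ∀ n ≥ N, c * p.eval n < 2 ^ n := by
    induction p using Polynomial.induction_on' with
    | add p q hp hq =>
      intro c
      obtain ⟨N, hN⟩ := hp (2 * c)
      obtain ⟨M, hM⟩ := hq (2 * c)
      refine ⟨max N M, fun n hn => ?_⟩
      have h1 := hN n (le_of_max_le_left hn)
      have h2 := hM n (le_of_max_le_right hn)
      rw [Polynomial.eval_add]
      have h3 : 2 * (c * (p.eval n + q.eval n)) < 2 * 2 ^ n := by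
        calc 2 * (c * (p.eval n + q.eval n)) = 2 * c * p.eval n + 2 * c * q.eval n := by ring
          _ < 2 ^ n + 2 ^ n := Nat.add_lt_add h1 h2
          _ = 2 * 2 ^ n := by ring
      exact Nat.lt_of_mul_lt_mul_left h3
    | monomial k a =>
      intro c
      obtain ⟨N, hN⟩ := hmono k (c * a)
      refine ⟨N, fun n hn => ?_⟩
      rw [Polynomial.eval_monomial, ← mul_assoc]
      exact hN n hn
  obtain ⟨N, hN⟩ := key 1
  exact ⟨N, fun n hn => by simpa using hN n hn⟩

end Pool.Agent.H668R2.Dehn
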